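import Pool.Agent.H57.RED.Stmts

namespace Pool.MCR.Red

open Pool.MCR

/-- The four pairs of disjoint edges of `H0` outside `p25`. -/
def misBad : List (Fin 8 × Fin 8 × Fin 8 × Fin 8) :=
  [(2,5,3,7),(1,6,3,5),(0,2,4,6),(0,2,1,6)]

theorem mis_key0 : (h0.all fun e => h0.all fun f =>
    (decide (e.1 = f.1) || decide (e.1 = f.2) || decide (e.2 = f.1) || decide (e.2 = f.2)) ||
    (decide ((e.1, e.2, f.1, f.2) ∈ p25) || decide ((f.1, f.2, e.1, e.2) ∈ p25) ||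
      decide ((e.1, e.2, f.1, f.2) ∈ misBad) || decide ((f.1, f.2, e.1, e.2) ∈ misBad))) = true := by
  decide +kernel

theorem mis_key : ∀ e ∈ h0, ∀ f ∈ h0, e.1 ≠ f.1 → e.1 ≠ f.2 → e.2 ≠ f.1 → e.2 ≠ f.2 →
    (e.1, e.2, f.1, f.2) ∈ p25 ∨ (f.1, f.2, e.1, e.2) ∈ p25 ∨
      (e.1, e.2, f.1, f.2) ∈ misBad ∨ (f.1, f.2, e.1, e.2) ∈ misBad := by
  intro e he f hf n1 n2 n3 n4
  have h := List.all_eq_true.1 (List.all_eq_true.1 mis_key0 e he) f hf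
  simp only [Bool.or_eq_true, decide_eq_true_eq] at h
  tauto

theorem mis_bad {Q : Finset VV} {a b c d : VV}
    (hv : ∀ v, v ∈ Q ↔ v = a ∨ v = b ∨ v = c ∨ v = d)
    (h : (a.1, b.1, c.1, d.1) ∈ misBad) :
    Q ∈ Tr 2 3 5 7 ∨ Q ∈ Tr 1 3 5 6 ∨ Q ∈ Tr 0 2 4 6 ∨ Q ∈ Tr 0 1 2 6 := by
  simp only [misBad, List.mem_cons, Prod.mk.injEq, List.not_mem_nil, or_false] at h
  rcases h with ⟨h1, h2, h3, h4⟩ | ⟨h1, h2, h3, h4⟩ | ⟨h1, h2, h3, h4⟩ | ⟨h1, h2, h3, h4⟩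
  · left
    exact ⟨a, c, b, d, h1, h3, h2, h4, fun v => by rw [hv]; tauto⟩
  · right; left
    exact ⟨a, c, d, b, h1, h3, h4, h2, fun v => by rw [hv]; tauto⟩
  · right; right; left
    exact ⟨a, b, c, d, h1, h2, h3, h4, fun v => by rw [hv]⟩
  · right; right; right
    exact ⟨a, c, b, d, h1, h3, h2, h4, fun v => by rw [hv]; tauto⟩

theorem mis_main {D : Drawing (blow H0)}
    (h1 : ∀ q ∈ p25, ∀ x y z t : VV, x.1 = q.1 → y.1 = q.2.1 → z.1 = q.2.2.1 →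
      t.1 = q.2.2.2 → D.Crosses s(x, y) s(z, t))
    (h2 : ∀ x x' y z : VV, x ≠ x' → y ≠ z → x.1 = x'.1 → H0.Adj x.1 y.1 → H0.Adj x.1 z.1 →
      D.Crosses s(x, y) s(x', z) ∨ D.Crosses s(x, z) s(x', y))
    {Q : Finset VV} (hX : ¬ IsX D Q) {a b c d : VV}
    (hab : a ≠ b) (hac : a ≠ c) (had : a ≠ d) (hbc : b ≠ c) (hbd : b ≠ d) (hcd : c ≠ d)
    (hv : ∀ v, v ∈ Q ↔ v = a ∨ v = b ∨ v = c ∨ v = d)
    (e1 : (a.1, b.1) ∈ h0) (e2 : (c.1, d.1) ∈ h0) :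
    Q ∈ Tr 2 3 5 7 ∨ Q ∈ Tr 1 3 5 6 ∨ Q ∈ Tr 0 2 4 6 ∨ Q ∈ Tr 0 1 2 6 := by
  have A1 : H0.Adj a.1 b.1 := Or.inl e1
  have A2 : H0.Adj c.1 d.1 := Or.inl e2
  have A1' : H0.Adj b.1 a.1 := A1.symm
  have A2' : H0.Adj d.1 c.1 := A2.symm
  by_cases t1 : a.1 = c.1
  · exfalso
    have B1 : H0.Adj a.1 d.1 := by rw [t1]; exact A2
    have B2 : H0.Adj c.1 b.1 := by rw [← t1]; exact A1
    rcases h2 a c b d hac hbd t1 A1 B1 with h | h
    · exact hX ⟨a, b, c, d, hab, hac, had, hbc, hbd, hcd, hv, A1, A2, h⟩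
    · exact hX ⟨a, d, c, b, had, hac, hab, hcd.symm, hbd.symm, hbc.symm,
        fun v => by rw [hv]; tauto, B1, B2, h⟩
  by_cases t2 : a.1 = d.1
  · exfalso
    have B1 : H0.Adj a.1 c.1 := by rw [t2]; exact A2'
    have B2 : H0.Adj d.1 b.1 := by rw [← t2]; exact A1
    rcases h2 a d b c had hbc t2 A1 B1 with h | h
    · exact hX ⟨a, b, d, c, hab, had, hac, hbd, hbc, hcd.symm,
        fun v => by rw [hv]; tauto, A1, A2', h⟩
    · exact hX ⟨a, c, d, b, hac, had, hab, hcd, hbc.symm, hbd.symm,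
        fun v => by rw [hv]; tauto, B1, B2, h⟩
  by_cases t3 : b.1 = c.1
  · exfalso
    have B1 : H0.Adj b.1 d.1 := by rw [t3]; exact A2
    have B2 : H0.Adj c.1 a.1 := by rw [← t3]; exact A1'
    rcases h2 b c a d hbc had t3 A1' B1 with h | h
    · exact hX ⟨b, a, c, d, hab.symm, hbc, hbd, hac, had, hcd,
        fun v => by rw [hv]; tauto, A1', A2, h⟩
    · exact hX ⟨b, d, c, a, hbd, hbc, hab.symm, hcd.symm, had.symm, hac.symm,
        fun v => by rw [hv]; tauto, B1, B2, h⟩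
  by_cases t4 : b.1 = d.1
  · exfalso
    have B1 : H0.Adj b.1 c.1 := by rw [t4]; exact A2'
    have B2 : H0.Adj d.1 a.1 := by rw [← t4]; exact A1'
    rcases h2 b d a c hbd hac t4 A1' B1 with h | h
    · exact hX ⟨b, a, d, c, hab.symm, hbd, hbc, had, hac, hcd.symm,
        fun v => by rw [hv]; tauto, A1', A2', h⟩
    · exact hX ⟨b, c, d, a, hbc, hbd, hab.symm, hcd, hac.symm, had.symm,
        fun v => by rw [hv]; tauto, B1, B2, h⟩
  rcases mis_key _ e1 _ e2 t1 t2 t3 t4 with h | h | h | h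
  · exact absurd ⟨a, b, c, d, hab, hac, had, hbc, hbd, hcd, hv, A1, A2,
      h1 _ h a b c d rfl rfl rfl rfl⟩ hX
  · exact absurd ⟨c, d, a, b, hcd, hac.symm, hbc.symm, had.symm, hbd.symm, hab,
      fun v => by rw [hv]; tauto, A2, A1, h1 _ h c d a b rfl rfl rfl rfl⟩ hX
  · exact mis_bad hv h
  · exact mis_bad (fun v => by rw [hv]; tauto) h

theorem mis_thm : MIS_S := by
  intro D h1 h2 Q hQ hX
  obtain ⟨a, b, c, d, hab, hac, had, hbc, hbd, hcd, hv, e1, e2⟩ := hQ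
  rcases e1 with e1 | e1 <;> rcases e2 with e2 | e2
  · exact mis_main h1 h2 hX hab hac had hbc hbd hcd hv e1 e2
  · exact mis_main h1 h2 hX hab had hac hbd hbc hcd.symm (fun v => by rw [hv]; tauto) e1 e2
  · exact mis_main h1 h2 hX hab.symm hbc hbd hac had hcd (fun v => by rw [hv]; tauto) e1 e2
  · exact mis_main h1 h2 hX hab.symm hbd hbc had hac hcd.symm
      (fun v => by rw [hv]; tauto) e1 e2

end Pool.MCR.Red
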